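import Pool.Agent.W993.SD.Basic

/-! SD-14: crude small ball bound. -/

set_option autoImplicit false
open MeasureTheory ProbabilityTheory
open scoped ENNReal

namespace Pool.Agent.W134.SD
open W993.SD

lemma gauss_ball (a r : ℝ) (hr : 0 ≤ r) :
    gaussianReal 0 1 {z | |z - a| ≤ r} ≤ ENNReal.ofReal r := by
  rw [gaussianReal_apply 0 one_ne_zero]
  have h1 : ∀ z, gaussianPDF 0 1 z ≤ ENNReal.ofReal (1 / 2) := by
    intro z
    unfold gaussianPDF
    apply ENNReal.ofReal_le_ofReal
    simp only [gaussianPDFReal, NNReal.coe_one, mul_one, sub_zero]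
    have h2 : (2 : ℝ) ≤ Real.sqrt (2 * Real.pi) := by
      apply Real.le_sqrt_of_sq_le
      nlinarith [Real.pi_gt_three]
    have h3 : (Real.sqrt (2 * Real.pi))⁻¹ ≤ 1 / 2 := by
      rw [one_div]
      exact inv_anti₀ (by norm_num) h2
    have h4 : Real.exp (-z ^ 2 / 2) ≤ 1 := by
      rw [Real.exp_le_one_iff]
      nlinarith [sq_nonneg z]
    have h5 : 0 < Real.exp (-z ^ 2 / 2) := Real.exp_pos _
    have h6 : 0 ≤ (Real.sqrt (2 * Real.pi))⁻¹ := by positivity
    calc (Real.sqrt (2 * Real.pi))⁻¹ * Real.exp (-z ^ 2 / 2) ≤ 1 / 2 * 1 := by gcongr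
      _ = 1 / 2 := mul_one _
  calc ∫⁻ x in {z | |z - a| ≤ r}, gaussianPDF 0 1 x
      ≤ ∫⁻ _x in {z | |z - a| ≤ r}, ENNReal.ofReal (1 / 2) := lintegral_mono fun z => h1 z
    _ = ENNReal.ofReal (1 / 2) * volume {z | |z - a| ≤ r} := by
        rw [lintegral_const, Measure.restrict_apply MeasurableSet.univ, Set.univ_inter]
    _ = ENNReal.ofReal (1 / 2) * ENNReal.ofReal (2 * r) := by
        have : {z : ℝ | |z - a| ≤ r} = Metric.closedBall a r := by
          ext z
          rw [Metric.mem_closedBall, Real.dist_eq]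
          rfl
        rw [this, Real.volume_closedBall]
    _ = ENNReal.ofReal r := by
        rw [← ENNReal.ofReal_mul (by norm_num)]
        congr 1
        ring

lemma slice {ι : Type} [Fintype ι] [DecidableEq ι] (i₀ : ι) (c : (ι → ℝ) → ℝ)
    (hc : Measurable c) (hcu : ∀ ω z, c (Function.update ω i₀ z) = c ω) (r : ℝ) (hr : 0 ≤ r) :
    G ι {ω | |ω i₀ - c ω| ≤ r} ≤ ENNReal.ofReal r := by
  have hm : Measurable fun ω : ι → ℝ => |ω i₀ - c ω| := by
    have h1 : Measurable fun ω : ι → ℝ => ω i₀ - c ω := (measurable_pi_apply i₀).sub hc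
    exact continuous_abs.measurable.comp h1
  have hS : MeasurableSet {ω : ι → ℝ | |ω i₀ - c ω| ≤ r} := measurableSet_le hm measurable_const
  rw [← lintegral_indicator_one hS]
  have h2 : ENNReal.ofReal r = ∫⁻ _ω : ι → ℝ, ENNReal.ofReal r ∂(G ι) := by
    rw [lintegral_const, measure_univ, mul_one]
  rw [h2]
  unfold G
  refine lintegral_le_of_lmarginal_le {i₀} (measurable_one.indicator hS) measurable_const ?_
  rw [lmarginal_singleton, lmarginal_singleton]
  intro x
  simp only [lintegral_const, measure_univ, mul_one]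
  have h3 : ∀ z, ({ω : ι → ℝ | |ω i₀ - c ω| ≤ r}.indicator (1 : (ι → ℝ) → ℝ≥0∞))
      (Function.update x i₀ z) = ({z : ℝ | |z - c x| ≤ r}.indicator (1 : ℝ → ℝ≥0∞)) z := by
    intro z
    by_cases hz : |z - c x| ≤ r
    · rw [Set.indicator_of_mem, Set.indicator_of_mem]
      · rfl
      · exact hz
      · show |Function.update x i₀ z i₀ - c (Function.update x i₀ z)| ≤ r
        rw [hcu, Function.update_self]
        exact hz
    · rw [Set.indicator_of_notMem, Set.indicator_of_notMem]
      · exact hz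
      · show ¬ |Function.update x i₀ z i₀ - c (Function.update x i₀ z)| ≤ r
        rw [hcu, Function.update_self]
        exact hz
  simp_rw [h3]
  have hm2 : MeasurableSet {z : ℝ | |z - c x| ≤ r} :=
    measurableSet_le (continuous_abs.measurable.comp (measurable_id.sub_const (c x)))
      measurable_const
  rw [lintegral_indicator_one hm2]
  exact gauss_ball (c x) r hr

/-- SD-14. -/
theorem small (H : S_Centre) : S_Small := by
  classical
  intro m n k f h A₀ s g hf hh hs hg
  rcases Nat.eq_zero_or_pos k with hk | hk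
  · subst hk
    have : {ω : Idx m n → ℝ | (sub (dA A₀ s ω) f h).det ≠ 0 ∧ g ≤ gs (dA A₀ s ω) f h} = ∅ := by
      ext ω
      simp only [gs, Finset.univ_eq_empty, Finset.sum_empty, Set.mem_ofPred_eq,
        Set.mem_empty_iff_false, iff_false, not_and, not_le]
      exact fun _ => hg
    rw [this]
    simp
  have hk0 : (0 : ℝ) < k := by exact_mod_cast hk
  set U : Fin k × Fin k → Set (Idx m n → ℝ) := fun a =>
    {ω | (sub (dA A₀ s ω) f h).det ≠ 0 ∧ g / (k : ℝ) ^ 2 ≤ |(sub (dA A₀ s ω) f h)⁻¹ a.2 a.1|}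
    with hU
  have h1 : {ω : Idx m n → ℝ | (sub (dA A₀ s ω) f h).det ≠ 0 ∧ g ≤ gs (dA A₀ s ω) f h} ⊆
      ⋃ a ∈ (Finset.univ : Finset (Fin k × Fin k)), U a := by
    rintro ω ⟨hd, hgs⟩
    by_contra hcon
    have h2 : ∀ a a', |(sub (dA A₀ s ω) f h)⁻¹ a a'| < g / (k : ℝ) ^ 2 := by
      intro a a'
      by_contra h3
      apply hcon
      simp only [Set.mem_iUnion]
      exact ⟨(a', a), Finset.mem_univ _, hd, not_lt.1 h3⟩
    have : Nonempty (Fin k) := ⟨⟨0, hk⟩⟩
    have h3 : gs (dA A₀ s ω) f h < g := by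
      unfold gs
      calc ∑ a, ∑ a', |(sub (dA A₀ s ω) f h)⁻¹ a a'|
          < ∑ _a : Fin k, ∑ _a' : Fin k, g / (k : ℝ) ^ 2 := by
            refine Finset.sum_lt_sum_of_nonempty Finset.univ_nonempty fun a _ => ?_
            exact Finset.sum_lt_sum_of_nonempty Finset.univ_nonempty fun a' _ => h2 a a'
        _ = g := by
            simp only [Finset.sum_const, Finset.card_univ, Fintype.card_fin, nsmul_eq_mul]
            field_simp
    linarith
  have h2 : ∀ a, G (Idx m n) (U a) ≤ ENNReal.ofReal ((k : ℝ) ^ 2 / (s * g)) := by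
    rintro ⟨a₀, a₀'⟩
    obtain ⟨p, _q, _r, hp, _, _, hpu, _, _, _, _, hpe⟩ := H m n k f h a₀ a₀' hf hh
    set i₀ : Idx m n := Sum.inl (f a₀, h a₀') with hi₀
    have hsub : U (a₀, a₀') ⊆ {ω | |ω i₀ - (p (dA A₀ s ω) - A₀ (f a₀) (h a₀')) / s| ≤
        (k : ℝ) ^ 2 / (s * g)} := by
      rintro ω ⟨hd, hG⟩
      have hG0 : 0 < |(sub (dA A₀ s ω) f h)⁻¹ a₀' a₀| := lt_of_lt_of_le (by positivity) hG
      have h3 := (hpe (dA A₀ s ω) (fun _ => 0) (fun _ => 0) hd (abs_pos.1 hG0)).1
      have h4 : ω i₀ - (p (dA A₀ s ω) - A₀ (f a₀) (h a₀')) / s =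
          ((sub (dA A₀ s ω) f h)⁻¹ a₀' a₀)⁻¹ / s := by
        rw [← h3, hi₀]
        simp only [dA]
        field_simp
        ring
      show |ω i₀ - (p (dA A₀ s ω) - A₀ (f a₀) (h a₀')) / s| ≤ (k : ℝ) ^ 2 / (s * g)
      rw [h4, abs_div, abs_inv, abs_of_pos hs]
      have h5 : (|(sub (dA A₀ s ω) f h)⁻¹ a₀' a₀|)⁻¹ ≤ (g / (k : ℝ) ^ 2)⁻¹ :=
        inv_anti₀ (by positivity) hG
      calc (|(sub (dA A₀ s ω) f h)⁻¹ a₀' a₀|)⁻¹ / s ≤ (g / (k : ℝ) ^ 2)⁻¹ / s := by gcongr
        _ = (k : ℝ) ^ 2 / (s * g) := by field_simp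
    refine (measure_mono hsub).trans (slice i₀ _ ?_ ?_ _ (by positivity))
    · exact ((hp.comp (measurable_dA A₀ s)).sub_const _).div_const s
    · intro ω z
      have h3 : dA A₀ s (Function.update ω i₀ z) =
          Function.update (dA A₀ s ω) (f a₀) (Function.update (dA A₀ s ω (f a₀)) (h a₀')
            (A₀ (f a₀) (h a₀') + s * z)) := by
        funext i j
        simp only [dA, hi₀]
        by_cases hi : i = f a₀
        · subst hi
          rw [Function.update_self]
          by_cases hj : j = h a₀'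
          · subst hj
            rw [Function.update_self, Function.update_self]
          · have hne : (Sum.inl (f a₀, j) : Idx m n) ≠ Sum.inl (f a₀, h a₀') := by
              intro hcon
              simp only [Sum.inl.injEq, Prod.mk.injEq] at hcon
              exact hj hcon.2
            rw [Function.update_of_ne hne, Function.update_of_ne hj]
            rfl
        · have hne : (Sum.inl (i, j) : Idx m n) ≠ Sum.inl (f a₀, h a₀') := by
            intro hcon
            simp only [Sum.inl.injEq, Prod.mk.injEq] at hcon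
            exact hi hcon.1
          rw [Function.update_of_ne hne, Function.update_of_ne hi]
          rfl
      rw [h3, hpu]
  calc G (Idx m n) {ω | (sub (dA A₀ s ω) f h).det ≠ 0 ∧ g ≤ gs (dA A₀ s ω) f h}
      ≤ G (Idx m n) (⋃ a ∈ (Finset.univ : Finset (Fin k × Fin k)), U a) := measure_mono h1
    _ ≤ ∑ a : Fin k × Fin k, G (Idx m n) (U a) := measure_biUnion_finset_le _ _
    _ ≤ ∑ _a : Fin k × Fin k, ENNReal.ofReal ((k : ℝ) ^ 2 / (s * g)) :=
        Finset.sum_le_sum fun a _ => h2 a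
    _ = ENNReal.ofReal ((k : ℝ) ^ 4 / (s * g)) := by
        rw [Finset.sum_const, Finset.card_univ, Fintype.card_prod, Fintype.card_fin, nsmul_eq_mul,
          ← ENNReal.ofReal_natCast, ← ENNReal.ofReal_mul (Nat.cast_nonneg _)]
        congr 1
        push_cast
        ring

end Pool.Agent.W134.SD
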