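import Pool.Agent.W993.SD.Basic

/-! SD-15: the optimal basis is rarely badly conditioned. -/

set_option autoImplicit false
open MeasureTheory ProbabilityTheory
open scoped ENNReal

namespace Pool.Agent.W134.SD
open W993.SD

lemma PB_of_mem {m n : ℕ} {p : Finset (Fin m) × Finset (Fin n)} (hp : p ∈ Bases m n)
    (E : (f : Fin p.1.card → Fin m) → (h : Fin p.1.card → Fin n) → Set (Idx m n → ℝ)) :
    ∃ e : p.2.card = p.1.card, PB p E = G (Idx m n) (E (fI p.1) (hJ p.1 p.2 e)) := by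
  have e : p.2.card = p.1.card := (Finset.mem_filter.1 hp).2
  exact ⟨e, by rw [PB, dif_pos e]⟩

lemma sum_disj (HU : S_Unique) {m n : ℕ} (A₀ : Fin m → Fin n → ℝ) (b₀ : Fin m → ℝ)
    (c₀ : Fin n → ℝ) (s : ℝ)
    (E : ∀ k : ℕ, (Fin k → Fin m) → (Fin k → Fin n) → Set (Idx m n → ℝ))
    (hE : ∀ k f h, MeasurableSet (E k f h))
    (hsub : ∀ k f h ω, ω ∈ E k f h → SO (dA A₀ s ω) (dB b₀ s ω) (dC c₀ s ω) f h)
    (U : Set (Idx m n → ℝ))
    (hU : ∀ k f h, Function.Injective f → Function.Injective h → E k f h ⊆ U) :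
    ∑ p ∈ Bases m n, PB p (fun f h => E p.1.card f h) ≤ G (Idx m n) U := by
  set E' : Finset (Fin m) × Finset (Fin n) → Set (Idx m n → ℝ) := fun p =>
    {ω | ∃ e : p.2.card = p.1.card, ω ∈ E p.1.card (fI p.1) (hJ p.1 p.2 e)} with hE'
  have h1 : ∀ p ∈ Bases m n, PB p (fun f h => E p.1.card f h) = G (Idx m n) (E' p) := by
    intro p hp
    obtain ⟨e, he⟩ := PB_of_mem hp (fun f h => E p.1.card f h)
    rw [he]
    congr 1
    ext ω
    simp only [hE', Set.mem_ofPred_eq]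
    exact ⟨fun h => ⟨e, h⟩, fun ⟨_, h⟩ => h⟩
  rw [Finset.sum_congr rfl h1, ← measure_biUnion_finset]
  · refine measure_mono ?_
    intro ω hω
    simp only [Set.mem_iUnion] at hω
    obtain ⟨p, _, e, h⟩ := hω
    exact hU _ _ _ (fI_injective _) (hJ_injective _ _ e) h
  · intro p _ p' _ hpp
    rw [Function.onFun, Set.disjoint_left]
    rintro ω ⟨e, h⟩ ⟨e', h'⟩
    apply hpp
    obtain ⟨h2, h3⟩ := HU m n _ _ _ _ _ _ _ _ _ (fI_injective _) (hJ_injective _ _ e)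
      (fI_injective _) (hJ_injective _ _ e') (hsub _ _ _ _ h) (hsub _ _ _ _ h').wo
    rw [range_fI, range_fI] at h2
    rw [range_hJ, range_hJ] at h3
    exact Prod.ext (Finset.coe_injective h2) (Finset.coe_injective h3)
  · intro p hp
    have e : p.2.card = p.1.card := (Finset.mem_filter.1 hp).2
    have : E' p = E p.1.card (fI p.1) (hJ p.1 p.2 e) := by
      ext ω
      simp only [hE', Set.mem_ofPred_eq]
      exact ⟨fun ⟨_, h⟩ => h, fun h => ⟨e, h⟩⟩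
    rw [this]
    exact hE _ _ _

/-- the events by the size of the solution -/
def EE {m n : ℕ} (A₀ : Fin m → Fin n → ℝ) (b₀ : Fin m → ℝ) (c₀ : Fin n → ℝ) (s L : ℝ) :
    ℕ → ∀ k : ℕ, (Fin k → Fin m) → (Fin k → Fin n) → Set (Idx m n → ℝ)
  | 0, _, f, h => {ω | Box (2 * L) ω ∧ SO (dA A₀ s ω) (dB b₀ s ω) (dC c₀ s ω) f h}
  | q + 1, _, f, h => {ω | Box (2 * L) ω ∧ SO (dA A₀ s ω) (dB b₀ s ω) (dC c₀ s ω) f h ∧
      ((∃ a, (2 : ℝ) ^ q < xk (dA A₀ s ω) (dB b₀ s ω) f h a) ∨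
        ∃ a, (2 : ℝ) ^ q < yk (dA A₀ s ω) (dC c₀ s ω) f h a)}

lemma measurableSet_EE {m n : ℕ} (A₀ : Fin m → Fin n → ℝ) (b₀ : Fin m → ℝ) (c₀ : Fin n → ℝ)
    (s L : ℝ) (q k : ℕ) (f : Fin k → Fin m) (h : Fin k → Fin n) :
    MeasurableSet (EE A₀ b₀ c₀ s L q k f h) := by
  have h0 : MeasurableSet {ω : Idx m n → ℝ | Box (2 * L) ω} := measurableSet_Box _
  have h1 := measurableSet_SO_data A₀ b₀ c₀ s f h
  cases q with
  | zero => exact h0.inter h1
  | succ q =>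
    have h2 : MeasurableSet {ω : Idx m n → ℝ |
        ∃ a, (2 : ℝ) ^ q < xk (dA A₀ s ω) (dB b₀ s ω) f h a} := by
      rw [Set.ofPred_exists]
      exact MeasurableSet.iUnion fun a => measurableSet_lt measurable_const
        (measurable_xk_comp (measurable_dA A₀ s) (measurable_dB b₀ s) f h a)
    have h3 : MeasurableSet {ω : Idx m n → ℝ |
        ∃ a, (2 : ℝ) ^ q < yk (dA A₀ s ω) (dC c₀ s ω) f h a} := by
      rw [Set.ofPred_exists]
      exact MeasurableSet.iUnion fun a => measurableSet_lt measurable_const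
        (measurable_yk_comp (measurable_dA A₀ s) (measurable_dC c₀ s) f h a)
    exact h0.inter (h1.inter (h2.union h3))

/-- the windows -/
def ZZ : ℕ → Set (ℝ × ℝ)
  | 0 => {z | 0 < z.1 ∧ 0 < z.2 ∧ max z.1 z.2 ≤ 1}
  | q + 1 => {z | 0 < z.1 ∧ 0 < z.2 ∧ (2 : ℝ) ^ q < max z.1 z.2 ∧ max z.1 z.2 ≤ 2 ^ (q + 1)}

lemma measurableSet_ZZ (q : ℕ) : MeasurableSet (ZZ q) := by
  have h1 : MeasurableSet {z : ℝ × ℝ | 0 < z.1} := measurableSet_lt measurable_const measurable_fst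
  have h2 : MeasurableSet {z : ℝ × ℝ | 0 < z.2} := measurableSet_lt measurable_const measurable_snd
  have hm : Measurable fun z : ℝ × ℝ => max z.1 z.2 := measurable_fst.max measurable_snd
  cases q with
  | zero => exact h1.inter (h2.inter (measurableSet_le hm measurable_const))
  | succ q => exact h1.inter (h2.inter ((measurableSet_lt measurable_const hm).inter
      (measurableSet_le hm measurable_const)))

lemma ZZ_bound (q : ℕ) : ∀ z ∈ ZZ q, |z.1| ≤ (2 : ℝ) ^ q ∧ |z.2| ≤ (2 : ℝ) ^ q := by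
  intro z hz
  cases q with
  | zero =>
    obtain ⟨h1, h2, h3⟩ := hz
    rw [abs_of_pos h1, abs_of_pos h2, pow_zero]
    exact ⟨(le_max_left _ _).trans h3, (le_max_right _ _).trans h3⟩
  | succ q =>
    obtain ⟨h1, h2, _, h3⟩ := hz
    rw [abs_of_pos h1, abs_of_pos h2]
    exact ⟨(le_max_left _ _).trans h3, (le_max_right _ _).trans h3⟩

lemma ZZ_cover (N : ℕ) (z : ℝ × ℝ) (h1 : 0 < z.1) (h2 : 0 < z.2) (h3 : max z.1 z.2 ≤ 2 ^ N) :
    ∃ q ∈ Finset.range (N + 1), z ∈ ZZ q := by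
  classical
  have hex : ∃ q, max z.1 z.2 ≤ (2 : ℝ) ^ q := ⟨N, h3⟩
  refine ⟨Nat.find hex, Finset.mem_range.2 (Nat.lt_succ_of_le (Nat.find_min' hex h3)), ?_⟩
  have h4 := Nat.find_spec hex
  rcases h5 : Nat.find hex with _ | q
  · rw [h5, pow_zero] at h4
    exact ⟨h1, h2, h4⟩
  · rw [h5] at h4
    have h6 : ¬ max z.1 z.2 ≤ (2 : ℝ) ^ q := Nat.find_min hex (by omega)
    exact ⟨h1, h2, not_le.1 h6, h4⟩

/-- the bound for one basis -/
lemma basis_bound (HS : S_Scaling) {m n k : ℕ} (f : Fin k → Fin m) (h : Fin k → Fin n)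
    (A₀ : Fin m → Fin n → ℝ) (b₀ : Fin m → ℝ) (c₀ : Fin n → ℝ) (s L g P : ℝ) (N : ℕ)
    (hf : Function.Injective f) (hh : Function.Injective h) (hs : 0 < s) (hL : 1 ≤ L)
    (hg : 1 ≤ g) (hP : (k : ℝ) ≤ P) (hP1 : 1 ≤ P) :
    G (Idx m n) {ω | Box L ω ∧ g ≤ gs (dA A₀ s ω) f h ∧
        SO (dA A₀ s ω) (dB b₀ s ω) (dC c₀ s ω) f h} ≤
      ENNReal.ofReal (P ^ 2) * (∑ q ∈ Finset.range (N + 1),
        ENNReal.ofReal (24 * 2 ^ q * L * P ^ 2 / (s * g)) *
          G (Idx m n) (EE A₀ b₀ c₀ s L q k f h) + G (Idx m n) (EE A₀ b₀ c₀ s L (N + 1) k f h)) := by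
  classical
  have hP2 : 0 < P ^ 2 := by positivity
  have hk2 : ((Finset.univ : Finset (Fin k × Fin k)).card : ℝ≥0∞) ≤ ENNReal.ofReal (P ^ 2) := by
    rw [Finset.card_univ, Fintype.card_prod, Fintype.card_fin]
    rw [← ENNReal.ofReal_natCast]
    apply ENNReal.ofReal_le_ofReal
    push_cast
    have : (0 : ℝ) ≤ k := Nat.cast_nonneg k
    nlinarith
  set B : ℝ≥0∞ := ∑ q ∈ Finset.range (N + 1),
        ENNReal.ofReal (24 * 2 ^ q * L * P ^ 2 / (s * g)) *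
          G (Idx m n) (EE A₀ b₀ c₀ s L q k f h) + G (Idx m n) (EE A₀ b₀ c₀ s L (N + 1) k f h)
    with hB
  -- pairs
  set W : Fin k × Fin k → Set (Idx m n → ℝ) := fun a =>
    {ω | Box L ω ∧ SO (dA A₀ s ω) (dB b₀ s ω) (dC c₀ s ω) f h ∧
        g / P ^ 2 ≤ |(sub (dA A₀ s ω) f h)⁻¹ a.2 a.1|} with hW
  have h1 : {ω : Idx m n → ℝ | Box L ω ∧ g ≤ gs (dA A₀ s ω) f h ∧
        SO (dA A₀ s ω) (dB b₀ s ω) (dC c₀ s ω) f h} ⊆
      ⋃ a ∈ (Finset.univ : Finset (Fin k × Fin k)), W a := by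
    rintro ω ⟨hb, hgs, hso⟩
    by_contra hcon
    have h2 : ∀ a a', |(sub (dA A₀ s ω) f h)⁻¹ a a'| < g / P ^ 2 := by
      intro a a'
      by_contra h3
      apply hcon
      simp only [Set.mem_iUnion]
      exact ⟨(a', a), Finset.mem_univ _, hb, hso, not_lt.1 h3⟩
    have hg0 : 0 < g := by linarith
    rcases Nat.eq_zero_or_pos k with hk | hk
    · subst hk
      simp only [gs, Finset.univ_eq_empty, Finset.sum_empty] at hgs
      linarith
    · have : Nonempty (Fin k) := ⟨⟨0, hk⟩⟩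
      have h3 : gs (dA A₀ s ω) f h < g := by
        unfold gs
        calc ∑ a, ∑ a', |(sub (dA A₀ s ω) f h)⁻¹ a a'|
            < ∑ _a : Fin k, ∑ _a' : Fin k, g / P ^ 2 := by
              refine Finset.sum_lt_sum_of_nonempty Finset.univ_nonempty fun a _ => ?_
              exact Finset.sum_lt_sum_of_nonempty Finset.univ_nonempty fun a' _ => h2 a a'
          _ = (k : ℝ) ^ 2 * (g / P ^ 2) := by
              simp only [Finset.sum_const, Finset.card_univ, Fintype.card_fin, nsmul_eq_mul]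
              ring
          _ ≤ P ^ 2 * (g / P ^ 2) := by
              have : (0 : ℝ) ≤ k := Nat.cast_nonneg k
              have h4 : (k : ℝ) ^ 2 ≤ P ^ 2 := by nlinarith
              exact mul_le_mul_of_nonneg_right h4 (by positivity)
          _ = g := by field_simp
      linarith
  have h2 : ∀ a : Fin k × Fin k, G (Idx m n) (W a) ≤ B := by
    rintro ⟨a₀, a₀'⟩
    set V : ℕ → Set (Idx m n → ℝ) := fun q =>
      {ω | Box L ω ∧ SO (dA A₀ s ω) (dB b₀ s ω) (dC c₀ s ω) f h ∧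
        g / P ^ 2 ≤ |(sub (dA A₀ s ω) f h)⁻¹ a₀' a₀| ∧
        (xk (dA A₀ s ω) (dB b₀ s ω) f h a₀', yk (dA A₀ s ω) (dC c₀ s ω) f h a₀) ∈ ZZ q} with hV
    have h3 : W (a₀, a₀') ⊆ (⋃ q ∈ Finset.range (N + 1), V q) ∪
        EE A₀ b₀ c₀ s L (N + 1) k f h := by
      rintro ω ⟨hb, hso, hgg⟩
      by_cases h4 : max (xk (dA A₀ s ω) (dB b₀ s ω) f h a₀')
          (yk (dA A₀ s ω) (dC c₀ s ω) f h a₀) ≤ 2 ^ N
      · left
        obtain ⟨q, hq, hz⟩ := ZZ_cover N (xk (dA A₀ s ω) (dB b₀ s ω) f h a₀',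
          yk (dA A₀ s ω) (dC c₀ s ω) f h a₀) (hso.2.1 _) (hso.2.2.1 _) h4
        simp only [Set.mem_iUnion]
        exact ⟨q, hq, hb, hso, hgg, hz⟩
      · right
        refine ⟨Box_mono (by linarith) hb, hso, ?_⟩
        rcases lt_max_iff.1 (not_le.1 h4) with h5 | h5
        · exact Or.inl ⟨_, h5⟩
        · exact Or.inr ⟨_, h5⟩
    have h5 : ∀ q, G (Idx m n) (V q) ≤ ENNReal.ofReal (24 * 2 ^ q * L * P ^ 2 / (s * g)) *
          G (Idx m n) (EE A₀ b₀ c₀ s L q k f h) := by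
      intro q
      have h6 := HS m n k f h a₀ a₀' A₀ b₀ c₀ s L (2 ^ q) (g / P ^ 2) (ZZ q) hf hh hs hL
        (one_le_pow₀ (by norm_num)) (by positivity) (measurableSet_ZZ q) (ZZ_bound q)
      refine h6.trans ?_
      have h7 : (24 : ℝ) * 2 ^ q * L / (s * (g / P ^ 2)) = 24 * 2 ^ q * L * P ^ 2 / (s * g) := by
        have hg0 : g ≠ 0 := by positivity
        field_simp
      rw [h7]
      refine mul_le_mul_right (measure_mono ?_) _
      rintro ω ⟨hb, hso, hz⟩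
      cases q with
      | zero => exact ⟨hb, hso⟩
      | succ q =>
        obtain ⟨_, _, h8, _⟩ := hz
        refine ⟨hb, hso, ?_⟩
        rcases lt_max_iff.1 h8 with h5 | h5
        · exact Or.inl ⟨_, h5⟩
        · exact Or.inr ⟨_, h5⟩
    calc G (Idx m n) (W (a₀, a₀')) ≤ G (Idx m n) ((⋃ q ∈ Finset.range (N + 1), V q) ∪
        EE A₀ b₀ c₀ s L (N + 1) k f h) := measure_mono h3
      _ ≤ G (Idx m n) (⋃ q ∈ Finset.range (N + 1), V q) +
          G (Idx m n) (EE A₀ b₀ c₀ s L (N + 1) k f h) := measure_union_le _ _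
      _ ≤ ∑ q ∈ Finset.range (N + 1), G (Idx m n) (V q) +
          G (Idx m n) (EE A₀ b₀ c₀ s L (N + 1) k f h) := by
          gcongr
          exact measure_biUnion_finset_le _ _
      _ ≤ B := by
          rw [hB]
          gcongr with q hq
          exact h5 q
  calc G (Idx m n) {ω | Box L ω ∧ g ≤ gs (dA A₀ s ω) f h ∧
        SO (dA A₀ s ω) (dB b₀ s ω) (dC c₀ s ω) f h}
      ≤ G (Idx m n) (⋃ a ∈ (Finset.univ : Finset (Fin k × Fin k)), W a) := measure_mono h1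
    _ ≤ ∑ a ∈ (Finset.univ : Finset (Fin k × Fin k)), G (Idx m n) (W a) :=
        measure_biUnion_finset_le _ _
    _ ≤ ∑ _a ∈ (Finset.univ : Finset (Fin k × Fin k)), B := Finset.sum_le_sum fun a _ => h2 a
    _ = ((Finset.univ : Finset (Fin k × Fin k)).card : ℝ≥0∞) * B := by
        rw [Finset.sum_const, nsmul_eq_mul]
    _ ≤ ENNReal.ofReal (P ^ 2) * B := by gcongr

/-- the real bounds of the sums over the bases -/
noncomputable def TT (B Q2 : ℝ) : ℕ → ℝ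
  | 0 => 1
  | q + 1 => B * Q2 ^ 10 * (1 + Real.log (2 ^ q)) / 2 ^ q

lemma sum_EE (HU : S_Unique) {CX CY : ℝ} (hCX : 0 < CX) (hCY : 0 < CY)
    (HX : ∀ (m n : ℕ) (A₀ : Fin m → Fin n → ℝ) (b₀ : Fin m → ℝ) (c₀ : Fin n → ℝ)
      (s H L R : ℝ), s ≠ 0 → |s| ≤ 1 → 1 ≤ H → 1 ≤ L → 1 ≤ R → BD H A₀ b₀ c₀ →
      G (Idx m n) {ω | Box L ω ∧ ∃ (k : ℕ) (f : Fin k → Fin m) (h : Fin k → Fin n),
        Function.Injective f ∧ Function.Injective h ∧
        SO (dA A₀ s ω) (dB b₀ s ω) (dC c₀ s ω) f h ∧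
        ∃ a, R < xk (dA A₀ s ω) (dB b₀ s ω) f h a} ≤
      ENNReal.ofReal (CX * Q m n H L s ^ 10 * (1 + Real.log R) / R))
    (HY : ∀ (m n : ℕ) (A₀ : Fin m → Fin n → ℝ) (b₀ : Fin m → ℝ) (c₀ : Fin n → ℝ)
      (s H L R : ℝ), s ≠ 0 → |s| ≤ 1 → 1 ≤ H → 1 ≤ L → 1 ≤ R → BD H A₀ b₀ c₀ →
      G (Idx m n) {ω | Box L ω ∧ ∃ (k : ℕ) (f : Fin k → Fin m) (h : Fin k → Fin n),
        Function.Injective f ∧ Function.Injective h ∧
        SO (dA A₀ s ω) (dB b₀ s ω) (dC c₀ s ω) f h ∧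
        ∃ a, R < yk (dA A₀ s ω) (dC c₀ s ω) f h a} ≤
      ENNReal.ofReal (CY * Q m n H L s ^ 10 * (1 + Real.log R) / R))
    {m n : ℕ} (A₀ : Fin m → Fin n → ℝ) (b₀ : Fin m → ℝ) (c₀ : Fin n → ℝ)
    (s H L : ℝ) (hs : 0 < s) (hs1 : s ≤ 1) (hH : 1 ≤ H) (hL : 1 ≤ L) (hB : BD H A₀ b₀ c₀)
    (q : ℕ) :
    ∑ p ∈ Bases m n, PB p (fun f h => EE A₀ b₀ c₀ s L q p.1.card f h) ≤
      ENNReal.ofReal (TT (CX + CY) (Q m n H (2 * L) s) q) := by
  cases q with
  | zero =>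
    refine (sum_disj HU A₀ b₀ c₀ s (EE A₀ b₀ c₀ s L 0) (measurableSet_EE A₀ b₀ c₀ s L 0)
      (fun k f h ω hω => hω.2) Set.univ (fun _ _ _ _ _ => Set.subset_univ _)).trans ?_
    simp [TT]
  | succ q =>
    have h1r : (1 : ℝ) ≤ 2 ^ q := one_le_pow₀ (by norm_num)
    have hs' : |s| ≤ 1 := by rw [abs_of_pos hs]; exact hs1
    have h1 := HX m n A₀ b₀ c₀ s H (2 * L) (2 ^ q) hs.ne' hs' hH (by linarith) h1r hB
    have h2 := HY m n A₀ b₀ c₀ s H (2 * L) (2 ^ q) hs.ne' hs' hH (by linarith) h1r hB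
    refine (sum_disj HU A₀ b₀ c₀ s (EE A₀ b₀ c₀ s L (q + 1)) (measurableSet_EE A₀ b₀ c₀ s L _)
      (fun k f h ω hω => hω.2.1) ({ω | Box (2 * L) ω ∧ ∃ (k : ℕ) (f : Fin k → Fin m)
        (h : Fin k → Fin n), Function.Injective f ∧ Function.Injective h ∧
        SO (dA A₀ s ω) (dB b₀ s ω) (dC c₀ s ω) f h ∧
        ∃ a, (2 : ℝ) ^ q < xk (dA A₀ s ω) (dB b₀ s ω) f h a} ∪ {ω | Box (2 * L) ω ∧
        ∃ (k : ℕ) (f : Fin k → Fin m)
        (h : Fin k → Fin n), Function.Injective f ∧ Function.Injective h ∧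
        SO (dA A₀ s ω) (dB b₀ s ω) (dC c₀ s ω) f h ∧
        ∃ a, (2 : ℝ) ^ q < yk (dA A₀ s ω) (dC c₀ s ω) f h a}) ?_).trans ?_
    · rintro k f h hf hh ω ⟨hb, hso, h3 | h3⟩
      · exact Or.inl ⟨hb, k, f, h, hf, hh, hso, h3⟩
      · exact Or.inr ⟨hb, k, f, h, hf, hh, hso, h3⟩
    · refine (measure_union_le _ _).trans ((add_le_add h1 h2).trans ?_)
      have hQ : 0 ≤ Q m n H (2 * L) s := by
        unfold Q
        positivity
      have hlog : 0 ≤ Real.log (2 ^ q) := Real.log_nonneg h1r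
      rw [← ENNReal.ofReal_add (by positivity) (by positivity)]
      apply ENNReal.ofReal_le_ofReal
      unfold TT
      apply le_of_eq
      ring

lemma final_num (B Q2 X P L s g : ℝ) (N : ℕ) (hB : 0 ≤ B) (hQ2 : 0 ≤ Q2) (hQX : Q2 ≤ 2 * X)
    (hX : 1 ≤ X) (hP : 1 ≤ P) (hPX : P ≤ X) (hPLX : P * L / s ≤ X) (hs : 0 < s) (hL : 1 ≤ L)
    (hg : 1 ≤ g) (hN1 : (2 : ℝ) ^ N ≤ g) (hN2 : g < 2 ^ (N + 1)) :
    P ^ 2 * (∑ q ∈ Finset.range (N + 1 + 1), 24 * 2 ^ q * L * P ^ 2 / (s * g) * TT B Q2 q +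
      TT B Q2 (N + 1 + 1)) ≤ (24 + 100352 * B) * X ^ 16 * (1 + Real.log g) ^ 2 / g := by
  have hg0 : 0 < g := by linarith
  have hlg : 0 ≤ Real.log g := Real.log_nonneg hg
  set l := Real.log g with hl
  have hlog2 : (1 / 2 : ℝ) ≤ Real.log 2 := by
    have := Real.log_two_gt_d9
    linarith
  have hlog2' : Real.log 2 ≤ 1 := by
    have := Real.log_two_lt_d9
    linarith
  -- number of levels
  have hNl : (N : ℝ) ≤ 2 * l := by
    have h1 : (N : ℝ) * Real.log 2 ≤ l := by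
      rw [← Real.log_pow, hl]
      exact Real.log_le_log (by positivity) hN1
    have h2 : (0 : ℝ) ≤ N := Nat.cast_nonneg N
    nlinarith
  set D := B * Q2 ^ 10 with hD
  have hD0 : 0 ≤ D := by positivity
  -- terms
  have hterm : ∀ q ∈ Finset.range (N + 1),
      24 * 2 ^ (q + 1) * L * P ^ 2 / (s * g) * TT B Q2 (q + 1) ≤
        48 * L * P ^ 2 * D * (1 + l) / (s * g) := by
    intro q hq
    have hqN : q ≤ N := Nat.lt_succ_iff.1 (Finset.mem_range.1 hq)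
    have h1 : Real.log (2 ^ q) ≤ l := by
      apply Real.log_le_log (by positivity)
      exact (pow_le_pow_right₀ (by norm_num) hqN).trans hN1
    have h2 : (24 : ℝ) * 2 ^ (q + 1) * L * P ^ 2 / (s * g) * TT B Q2 (q + 1) =
        48 * L * P ^ 2 * D * (1 + Real.log (2 ^ q)) / (s * g) := by
      simp only [TT]
      rw [hD]
      have : (2 : ℝ) ^ q ≠ 0 := by positivity
      field_simp
      ring
    rw [h2]
    gcongr
  have hsum : ∑ q ∈ Finset.range (N + 1 + 1), 24 * 2 ^ q * L * P ^ 2 / (s * g) * TT B Q2 q ≤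
      24 * L * P ^ 2 / (s * g) + (2 * (1 + l)) * (48 * L * P ^ 2 * D * (1 + l) / (s * g)) := by
    rw [Finset.sum_range_succ']
    have h1 := Finset.sum_le_sum hterm
    rw [Finset.sum_const, Finset.card_range, nsmul_eq_mul] at h1
    have h2 : ((N + 1 : ℕ) : ℝ) * (48 * L * P ^ 2 * D * (1 + l) / (s * g)) ≤
        (2 * (1 + l)) * (48 * L * P ^ 2 * D * (1 + l) / (s * g)) := by
      apply mul_le_mul_of_nonneg_right _ (by positivity)
      push_cast
      linarith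
    have h3 : 24 * 2 ^ 0 * L * P ^ 2 / (s * g) * TT B Q2 0 = 24 * L * P ^ 2 / (s * g) := by
      simp [TT]
    rw [h3]
    linarith
  have hlast : TT B Q2 (N + 1 + 1) ≤ D * (2 * (1 + l)) / g := by
    simp only [TT]
    rw [← hD]
    have h1 : Real.log (2 ^ (N + 1)) ≤ 1 + l := by
      have : (2 : ℝ) ^ (N + 1) ≤ 2 * g := by
        rw [pow_succ]
        linarith
      calc Real.log (2 ^ (N + 1)) ≤ Real.log (2 * g) := Real.log_le_log (by positivity) this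
        _ = Real.log 2 + l := by rw [Real.log_mul (by norm_num) hg0.ne']
        _ ≤ 1 + l := by linarith
    have h2 : 0 ≤ Real.log (2 ^ (N + 1)) :=
      Real.log_nonneg (one_le_pow₀ (by norm_num))
    gcongr
    linarith
  have hmain : P ^ 2 * (∑ q ∈ Finset.range (N + 1 + 1),
      24 * 2 ^ q * L * P ^ 2 / (s * g) * TT B Q2 q + TT B Q2 (N + 1 + 1)) ≤
      (24 * (P ^ 3 * (P * L / s)) + 96 * (P ^ 3 * (P * L / s)) * D * (1 + l) ^ 2 +
        2 * P ^ 2 * D * (1 + l)) / g := by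
    calc _ ≤ P ^ 2 * ((24 * L * P ^ 2 / (s * g) +
          (2 * (1 + l)) * (48 * L * P ^ 2 * D * (1 + l) / (s * g))) + D * (2 * (1 + l)) / g) := by
          gcongr
      _ = _ := by
          field_simp
          ring
  refine hmain.trans ?_
  apply div_le_div_of_nonneg_right _ hg0.le
  have hPL0 : 0 ≤ P * L / s := by positivity
  have h1 : P ^ 3 * (P * L / s) ≤ X ^ 4 := by
    calc P ^ 3 * (P * L / s) ≤ X ^ 3 * X := by gcongr
      _ = X ^ 4 := by ring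
  have h2 : D ≤ 1024 * B * X ^ 10 := by
    calc D ≤ B * (2 * X) ^ 10 := by rw [hD]; gcongr
      _ = 1024 * B * X ^ 10 := by ring
  have h3 : P ^ 2 ≤ X ^ 2 := by gcongr
  have hX0 : 0 ≤ X := by linarith
  have e1 : 24 * (P ^ 3 * (P * L / s)) ≤ 24 * X ^ 16 * (1 + l) ^ 2 := by
    have h4 : X ^ 4 ≤ X ^ 16 := pow_le_pow_right₀ hX (by norm_num)
    have h5 : 1 ≤ (1 + l) ^ 2 := one_le_pow₀ (by linarith)
    have h6 : 0 ≤ X ^ 16 := by positivity
    nlinarith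
  have e2 : 96 * (P ^ 3 * (P * L / s)) * D * (1 + l) ^ 2 ≤
      96 * 1024 * B * X ^ 16 * (1 + l) ^ 2 := by
    have h4 : X ^ 14 ≤ X ^ 16 := pow_le_pow_right₀ hX (by norm_num)
    calc 96 * (P ^ 3 * (P * L / s)) * D * (1 + l) ^ 2 ≤
        96 * (X ^ 4) * (1024 * B * X ^ 10) * (1 + l) ^ 2 := by gcongr
      _ = 96 * 1024 * B * X ^ 14 * (1 + l) ^ 2 := by ring
      _ ≤ _ := by gcongr
  have e3 : 2 * P ^ 2 * D * (1 + l) ≤ 2 * 1024 * B * X ^ 16 * (1 + l) ^ 2 := by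
    have h4 : X ^ 12 ≤ X ^ 16 := pow_le_pow_right₀ hX (by norm_num)
    have h5 : (1 + l) ≤ (1 + l) ^ 2 := by nlinarith
    calc 2 * P ^ 2 * D * (1 + l) ≤ 2 * X ^ 2 * (1024 * B * X ^ 10) * (1 + l) ^ 2 := by gcongr
      _ = 2 * 1024 * B * X ^ 12 * (1 + l) ^ 2 := by ring
      _ ≤ _ := by gcongr
  nlinarith [e1, e2, e3]

/-- SD-15. -/
theorem cond (HU : S_Unique) (HX : S_TailX) (HY : S_TailY) (HS : S_Scaling) : S_Cond := by
  obtain ⟨CX, hCX, HX⟩ := HX
  obtain ⟨CY, hCY, HY⟩ := HY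
  refine ⟨24 + 100352 * (CX + CY), by positivity, ?_⟩
  intro m n A₀ b₀ c₀ s H L g hs hs1 hH hL hg hBD
  obtain ⟨N, hN1, hN2⟩ := exists_nat_pow_near hg (by norm_num : (1 : ℝ) < 2)
  set P : ℝ := (m : ℝ) + n + 1 with hP
  have hP1 : 1 ≤ P := by
    have h1 : (0 : ℝ) ≤ m := Nat.cast_nonneg m
    have h2 : (0 : ℝ) ≤ n := Nat.cast_nonneg n
    linarith
  set B := CX + CY with hB
  set Q2 := Q m n H (2 * L) s with hQ2
  set X := Q m n H L s with hX
  have hXe : X = P * (H + L) / s := by rw [hX, Q, abs_of_pos hs]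
  have hQ2e : Q2 = P * (H + 2 * L) / s := by rw [hQ2, Q, abs_of_pos hs]
  have hP0 : 0 < P := by linarith
  have hPX : P ≤ X := by
    rw [hXe, le_div_iff₀ hs]
    nlinarith
  have hPL : P * L / s ≤ X := by
    rw [hXe]
    gcongr
    linarith
  have hQX : Q2 ≤ 2 * X := by
    rw [hXe, hQ2e, ← mul_div_assoc]
    apply div_le_div_of_nonneg_right _ hs.le
    nlinarith
  have hQ20 : 0 ≤ Q2 := by rw [hQ2e]; positivity
  have hnum := final_num B Q2 X P L s g N (by positivity) hQ20 hQX (by linarith) hP1 hPX hPL hs hL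
    hg hN1 hN2
  have hTT : ∀ q, 0 ≤ TT B Q2 q := by
    intro q
    cases q with
    | zero => exact zero_le_one
    | succ q =>
      have : 0 ≤ Real.log ((2 : ℝ) ^ q) := Real.log_nonneg (one_le_pow₀ (by norm_num))
      unfold TT
      positivity
  have hg0 : 0 < g := by linarith
  have hL0 : 0 < L := by linarith
  calc ∑ p ∈ Bases m n, PB p (fun f h => {ω | Box L ω ∧ g ≤ gs (dA A₀ s ω) f h ∧
        SO (dA A₀ s ω) (dB b₀ s ω) (dC c₀ s ω) f h})
      ≤ ∑ p ∈ Bases m n, ENNReal.ofReal (P ^ 2) * (∑ q ∈ Finset.range (N + 1 + 1),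
        ENNReal.ofReal (24 * 2 ^ q * L * P ^ 2 / (s * g)) *
          PB p (fun f h => EE A₀ b₀ c₀ s L q p.1.card f h) +
          PB p (fun f h => EE A₀ b₀ c₀ s L (N + 1 + 1) p.1.card f h)) := by
        refine Finset.sum_le_sum fun p hp => ?_
        have e : p.2.card = p.1.card := (Finset.mem_filter.1 hp).2
        simp only [PB, dif_pos e]
        refine basis_bound HS (fI p.1) (hJ p.1 p.2 e) A₀ b₀ c₀ s L g P (N + 1) (fI_injective _)
          (hJ_injective _ _ e) hs hL hg ?_ hP1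
        have h1 : p.1.card ≤ m := by
          have := Finset.card_le_univ p.1
          rwa [Fintype.card_fin] at this
        have h2 : (p.1.card : ℝ) ≤ m := by exact_mod_cast h1
        have h3 : (0 : ℝ) ≤ n := Nat.cast_nonneg n
        linarith
    _ = ENNReal.ofReal (P ^ 2) * (∑ q ∈ Finset.range (N + 1 + 1),
        ENNReal.ofReal (24 * 2 ^ q * L * P ^ 2 / (s * g)) *
          ∑ p ∈ Bases m n, PB p (fun f h => EE A₀ b₀ c₀ s L q p.1.card f h) +
          ∑ p ∈ Bases m n, PB p (fun f h => EE A₀ b₀ c₀ s L (N + 1 + 1) p.1.card f h)) := by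
        rw [← Finset.mul_sum, Finset.sum_add_distrib, Finset.sum_comm]
        simp only [Finset.mul_sum]
    _ ≤ ENNReal.ofReal (P ^ 2) * (∑ q ∈ Finset.range (N + 1 + 1),
        ENNReal.ofReal (24 * 2 ^ q * L * P ^ 2 / (s * g)) * ENNReal.ofReal (TT B Q2 q) +
          ENNReal.ofReal (TT B Q2 (N + 1 + 1))) := by
        gcongr with q hq
        · exact sum_EE HU hCX hCY HX HY A₀ b₀ c₀ s H L hs hs1 hH hL hBD q
        · exact sum_EE HU hCX hCY HX HY A₀ b₀ c₀ s H L hs hs1 hH hL hBD (N + 1 + 1)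
    _ = ENNReal.ofReal (P ^ 2 * (∑ q ∈ Finset.range (N + 1 + 1),
          24 * 2 ^ q * L * P ^ 2 / (s * g) * TT B Q2 q + TT B Q2 (N + 1 + 1))) := by
        rw [ENNReal.ofReal_mul (by positivity), ENNReal.ofReal_add _ (hTT _),
          ENNReal.ofReal_sum_of_nonneg]
        · congr 2
          refine Finset.sum_congr rfl fun q _ => ?_
          rw [ENNReal.ofReal_mul (by positivity)]
        · intro q _
          exact mul_nonneg (by positivity) (hTT q)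
        · exact Finset.sum_nonneg fun q _ => mul_nonneg (by positivity) (hTT q)
    _ ≤ _ := ENNReal.ofReal_le_ofReal hnum

end Pool.Agent.W134.SD
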