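import Pool.Agent.W993.SD.Basic

/-! SD-4: product anticoncentration. -/

set_option autoImplicit false
open MeasureTheory ProbabilityTheory
open scoped ENNReal

namespace Pool.Agent.W134.SD
open W993.SD

/-- SD-4. -/
theorem prod (H1 : S_Single) (H2 : S_Joint) : S_Prod := by
  classical
  intro ι _ X Y v w V W L ε hX hY hL hε hε1 hV hW hv hw hYv hYw hXw
  have hL0 : 0 < L := by linarith
  have hV0 : 0 < V := by linarith
  have hW0 : 0 < W := by linarith
  obtain ⟨M, hM1, hM2⟩ := exists_nat_pow_near (x := 1 / ε) (by rw [le_div_iff₀ hε]; linarith)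
    (by norm_num : (1 : ℝ) < 2)
  set l := Real.log (1 / ε) with hl
  have hl0 : 0 ≤ l := Real.log_nonneg (by rw [le_div_iff₀ hε]; linarith)
  have hMl : (M : ℝ) ≤ 2 * l := by
    have h1 : (M : ℝ) * Real.log 2 ≤ l := by
      rw [← Real.log_pow, hl]
      exact Real.log_le_log (by positivity) hM1
    have h2 : (0 : ℝ) ≤ M := Nat.cast_nonneg M
    have := Real.log_two_gt_d9
    nlinarith
  set A : Set (ι → ℝ) := {ω | Box L ω ∧ |Y ω| ≤ 2 * ε} with hA
  set B : ℕ → Set (ι → ℝ) := fun q => {ω | Box L ω ∧ |X ω| ≤ (1 / 2) ^ (q + 1) ∧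
    |Y ω| ≤ ε * 2 ^ (q + 2)} with hB
  set C : Set (ι → ℝ) := {ω | Box L ω ∧ |X ω| ≤ (1 / 2) ^ (M + 1)} with hC
  have hcov : {ω : ι → ℝ | Box L ω ∧ |X ω| * |Y ω| ≤ ε} ⊆
      (A ∪ ⋃ q ∈ Finset.range M, B q) ∪ C := by
    rintro ω ⟨hb, hxy⟩
    by_cases h1 : |X ω| ≤ (1 / 2) ^ (M + 1)
    · exact Or.inr ⟨hb, h1⟩
    · left
      have hex : ∃ r, (1 / 2 : ℝ) ^ (r + 1) < |X ω| := ⟨M, not_le.1 h1⟩
      have h2 := Nat.find_spec hex
      have hrM : Nat.find hex ≤ M := Nat.find_min' hex (not_le.1 h1)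
      rcases hr : Nat.find hex with _ | q
      · left
        rw [hr] at h2
        refine ⟨hb, ?_⟩
        have h3 : (0 : ℝ) ≤ |Y ω| := abs_nonneg _
        norm_num at h2
        nlinarith
      · right
        simp only [Set.mem_iUnion]
        refine ⟨q, Finset.mem_range.2 (by omega), hb, ?_, ?_⟩
        · have h3 : ¬ (1 / 2 : ℝ) ^ (q + 1) < |X ω| := Nat.find_min hex (by omega)
          exact not_lt.1 h3
        · rw [hr] at h2
          have h3 : (0 : ℝ) ≤ |Y ω| := abs_nonneg _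
          have h4 : (1 / 2 : ℝ) ^ (q + 1 + 1) * |Y ω| ≤ ε :=
            (mul_le_mul_of_nonneg_right h2.le h3).trans hxy
          have h5 : (1 / 2 : ℝ) ^ (q + 1 + 1) * 2 ^ (q + 2) = 1 := by
            rw [← mul_pow]; norm_num
          calc |Y ω| = ((1 / 2 : ℝ) ^ (q + 1 + 1) * |Y ω|) * 2 ^ (q + 2) := by
                rw [mul_right_comm, h5, one_mul]
            _ ≤ ε * 2 ^ (q + 2) := by gcongr
  have bA : G ι A ≤ ENNReal.ofReal (192 * L * V * ε) := by
    refine (H1 ι Y v V L (2 * ε) hY hL (by linarith) hV0 hv ?_).trans ?_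
    · intro ω t h1 h2
      rw [hYv] at h2
      rw [abs_le] at h1 h2 ⊢
      constructor <;> linarith [h1.1, h1.2, h2.1, h2.2]
    · apply ENNReal.ofReal_le_ofReal
      calc 8 * min 1 (12 * L * V * (2 * ε)) ≤ 8 * (12 * L * V * (2 * ε)) := by
            gcongr
            exact min_le_right _ _
        _ = 192 * L * V * ε := by ring
  have bC : G ι C ≤ ENNReal.ofReal (96 * L * W * ε) := by
    have h0 : (0 : ℝ) < (1 / 2) ^ (M + 1) := by positivity
    have h1 : ((1 : ℝ) / 2) ^ (M + 1) < 1 := pow_lt_one₀ (by norm_num) (by norm_num) (by omega)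
    have h2 : ((1 : ℝ) / 2) ^ (M + 1) ≤ ε := by
      rw [one_div, inv_pow]
      rw [div_lt_iff₀ hε] at hM2
      rw [inv_le_iff_one_le_mul₀ (by positivity)]
      linarith
    refine (H1 ι X w W L _ hX hL h0 hW0 hw (fun ω t => hXw ω t _ h0 h1)).trans ?_
    apply ENNReal.ofReal_le_ofReal
    calc 8 * min 1 (12 * L * W * (1 / 2) ^ (M + 1)) ≤ 8 * (12 * L * W * (1 / 2) ^ (M + 1)) := by
          gcongr
          exact min_le_right _ _
      _ ≤ 8 * (12 * L * W * ε) := by gcongr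
      _ = 96 * L * W * ε := by ring
  have bB : ∀ q, G ι (B q) ≤ ENNReal.ofReal (2304 * L ^ 2 * V * W * ε) := by
    intro q
    have h0 : (0 : ℝ) < (1 / 2) ^ (q + 1) := by positivity
    have h1 : ((1 : ℝ) / 2) ^ (q + 1) < 1 := pow_lt_one₀ (by norm_num) (by norm_num) (by omega)
    refine (H2 ι X Y v w V W L _ (ε * 2 ^ (q + 2)) hX hY hL h0 (by positivity) hV0 hW0 hv hw
      hYv hYw (fun ω t => hXw ω t _ h0 h1)).trans ?_
    apply ENNReal.ofReal_le_ofReal
    have h5 : (1 / 2 : ℝ) ^ (q + 1) * 2 ^ (q + 2) = 2 := by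
      rw [pow_succ 2 (q + 1), ← mul_assoc, ← mul_pow]; norm_num
    calc 8 * min 1 (12 * L * W * (1 / 2) ^ (q + 1)) * min 1 (12 * L * V * (ε * 2 ^ (q + 2)))
        ≤ 8 * (12 * L * W * (1 / 2) ^ (q + 1)) * (12 * L * V * (ε * 2 ^ (q + 2))) := by
          gcongr
          · exact min_le_right _ _
          · exact min_le_right _ _
      _ = 1152 * L ^ 2 * V * W * ε * ((1 / 2 : ℝ) ^ (q + 1) * 2 ^ (q + 2)) := by ring
      _ = 2304 * L ^ 2 * V * W * ε := by rw [h5]; ring
  calc G ι {ω : ι → ℝ | Box L ω ∧ |X ω| * |Y ω| ≤ ε}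
      ≤ G ι ((A ∪ ⋃ q ∈ Finset.range M, B q) ∪ C) := measure_mono hcov
    _ ≤ G ι (A ∪ ⋃ q ∈ Finset.range M, B q) + G ι C := measure_union_le _ _
    _ ≤ (G ι A + G ι (⋃ q ∈ Finset.range M, B q)) + G ι C := by
        gcongr
        exact measure_union_le _ _
    _ ≤ (ENNReal.ofReal (192 * L * V * ε) + ∑ _q ∈ Finset.range M,
          ENNReal.ofReal (2304 * L ^ 2 * V * W * ε)) + ENNReal.ofReal (96 * L * W * ε) := by
        gcongr
        exact (measure_biUnion_finset_le _ _).trans (Finset.sum_le_sum fun q _ => bB q)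
    _ = ENNReal.ofReal (192 * L * V * ε + M * (2304 * L ^ 2 * V * W * ε) + 96 * L * W * ε) := by
        rw [Finset.sum_const, Finset.card_range, nsmul_eq_mul, ← ENNReal.ofReal_natCast,
          ← ENNReal.ofReal_mul (Nat.cast_nonneg _), ← ENNReal.ofReal_add (by positivity)
          (by positivity), ← ENNReal.ofReal_add (by positivity) (by positivity)]
    _ ≤ ENNReal.ofReal (10000 * L ^ 2 * V * W * ε * (1 + l)) := by
        apply ENNReal.ofReal_le_ofReal
        set Z := L ^ 2 * V * W * ε with hZ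
        have hZ0 : 0 ≤ Z := by positivity
        have e1 : L * V * ε ≤ Z := by
          rw [hZ]
          have : L * V * ε * (1 * 1) ≤ L * V * ε * (L * W) := by gcongr
          nlinarith
        have e2 : L * W * ε ≤ Z := by
          rw [hZ]
          have : L * W * ε * (1 * 1) ≤ L * W * ε * (L * V) := by gcongr
          nlinarith
        have e3 : (M : ℝ) * (2304 * L ^ 2 * V * W * ε) ≤ 2 * l * (2304 * Z) := by
          calc (M : ℝ) * (2304 * L ^ 2 * V * W * ε) = M * (2304 * Z) := by rw [hZ]; ring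
            _ ≤ _ := by gcongr
        have e4 : 0 ≤ Z * l := by positivity
        have e5 : 10000 * L ^ 2 * V * W * ε * (1 + l) = 10000 * Z + 10000 * (Z * l) := by
          rw [hZ]; ring
        rw [e5]
        nlinarith

end Pool.Agent.W134.SD
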