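import Pool.Agent.W993.SD.Basic

/-! SD-2, SD-3: Gaussian tail and anticoncentration by disjoint translates. -/

set_option autoImplicit false
open MeasureTheory ProbabilityTheory
open scoped ENNReal

namespace Pool.Agent.W134.SD
open W993.SD

lemma tail1 (L : ℝ) (hL : 0 ≤ L) :
    gaussianReal 0 1 {x | L < |x|} ≤ ENNReal.ofReal (2 * Real.exp (-(L ^ 2 / 2))) := by
  have hmgf : ∀ t : ℝ, mgf id (gaussianReal 0 1) t = Real.exp (t ^ 2 / 2) := by
    intro t
    rw [mgf_id_gaussianReal]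
    simp
  have hint : ∀ t : ℝ, Integrable (fun x => Real.exp (t * id x)) (gaussianReal 0 1) := by
    intro t
    exact integrable_exp_mul_gaussianReal t
  have h1 := measure_ge_le_exp_mul_mgf (μ := gaussianReal 0 1) (X := id) L hL (hint L)
  have h2 := measure_le_le_exp_mul_mgf (μ := gaussianReal 0 1) (X := id) (-L)
    (t := -L) (by linarith) (hint (-L))
  rw [hmgf, ← Real.exp_add] at h1 h2
  have h3 : {x : ℝ | L < |x|} ⊆ {x | L ≤ id x} ∪ {x | id x ≤ -L} := by
    intro x hx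
    rcases lt_abs.1 (show L < |x| from hx) with h | h
    · exact Or.inl h.le
    · right
      show x ≤ -L
      linarith
  have h4 : (gaussianReal 0 1).real {x | L < |x|} ≤ 2 * Real.exp (-(L ^ 2 / 2)) := by
    calc (gaussianReal 0 1).real {x | L < |x|}
        ≤ (gaussianReal 0 1).real ({x | L ≤ id x} ∪ {x | id x ≤ -L}) := measureReal_mono h3
      _ ≤ (gaussianReal 0 1).real {x | L ≤ id x} + (gaussianReal 0 1).real {x | id x ≤ -L} :=
          measureReal_union_le _ _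
      _ ≤ Real.exp (-L * L + L ^ 2 / 2) + Real.exp (- -L * -L + (-L) ^ 2 / 2) := add_le_add h1 h2
      _ = 2 * Real.exp (-(L ^ 2 / 2)) := by
          have e1 : -L * L + L ^ 2 / 2 = -(L ^ 2 / 2) := by ring
          have e2 : - -L * -L + (-L) ^ 2 / 2 = -(L ^ 2 / 2) := by ring
          rw [e1, e2]; ring
  rw [← ENNReal.ofReal_toReal (measure_ne_top (gaussianReal 0 1) {x | L < |x|})]
  exact ENNReal.ofReal_le_ofReal h4

/-- SD-2. -/
theorem tail : S_Tail := by
  intro ι _ L hL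
  have h1 : {ω : ι → ℝ | ¬ Box L ω} ⊆ ⋃ i ∈ (Finset.univ : Finset ι), {ω | L < |ω i|} := by
    intro ω hω
    have h2 : ∃ i, L < |ω i| := by
      by_contra h
      push Not at h
      exact hω h
    obtain ⟨i, hi⟩ := h2
    simp only [Set.mem_iUnion]
    exact ⟨i, Finset.mem_univ i, hi⟩
  have hm : MeasurableSet {x : ℝ | L < |x|} :=
    measurableSet_lt measurable_const continuous_abs.measurable
  have h2 : ∀ i : ι, G ι {ω : ι → ℝ | L < |ω i|} = gaussianReal 0 1 {x | L < |x|} := by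
    intro i
    exact (measurePreserving_eval (fun _ : ι => gaussianReal 0 1) i).measure_preimage
      hm.nullMeasurableSet
  calc G ι {ω : ι → ℝ | ¬ Box L ω}
      ≤ G ι (⋃ i ∈ (Finset.univ : Finset ι), {ω | L < |ω i|}) := measure_mono h1
    _ ≤ ∑ i : ι, G ι {ω | L < |ω i|} := measure_biUnion_finset_le _ _
    _ ≤ ∑ _i : ι, ENNReal.ofReal (2 * Real.exp (-(L ^ 2 / 2))) :=
        Finset.sum_le_sum fun i _ => by rw [h2 i]; exact tail1 L hL
    _ = ENNReal.ofReal (2 * Fintype.card ι * Real.exp (-(L ^ 2 / 2))) := by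
        rw [Finset.sum_const, Finset.card_univ, nsmul_eq_mul, ← ENNReal.ofReal_natCast,
          ← ENNReal.ofReal_mul (Nat.cast_nonneg _)]
        congr 1
        ring

/-- disjoint translates of a set in the box -/
lemma translates (HT : S_Transport) {ι J : Type} [Fintype ι] (S : Finset J) (L : ℝ)
    (hL : 1 ≤ L) (E : Set (ι → ℝ)) (hE : MeasurableSet E) (hB : ∀ ω ∈ E, Box L ω)
    (u : J → ι → ℝ) (hu : ∀ j ∈ S, ∑ i, |u j i| ≤ 1 / L)
    (hd : ∀ j ∈ S, ∀ j' ∈ S, ∀ ω : ι → ℝ, ω - u j ∈ E → ω - u j' ∈ E → j = j') :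
    (S.card : ℝ≥0∞) * G ι E ≤ 8 := by
  have hVm : ∀ j, MeasurableSet {ω : ι → ℝ | ω - u j ∈ E} := by
    intro j
    exact (measurable_id.sub_const (u j)) hE
  have h1 : ∀ j ∈ S, G ι E ≤ 8 * G ι {ω : ι → ℝ | ω - u j ∈ E} := by
    intro j hj
    have h2 := HT ι (fun ω => ω + u j) 1 L {ω : ι → ℝ | ω - u j ∈ E}
      (measurable_id.add_const (u j)) le_rfl hL (hVm j) (fun F hF => by
        rw [inv_one, ENNReal.ofReal_one, one_mul]
        exact (lintegral_add_right_eq_self F (u j)).le)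
    rw [div_one] at h2
    have h3 : E ⊆ {ω : ι → ℝ | Box L ω ∧ ∑ i, |(ω + u j) i - ω i| ≤ 1 / L ∧
        ω + u j ∈ {ω : ι → ℝ | ω - u j ∈ E}} := by
      intro ω hω
      refine ⟨hB ω hω, ?_, ?_⟩
      · simp only [Pi.add_apply, add_sub_cancel_left]
        exact hu j hj
      · show ω + u j - u j ∈ E
        rwa [add_sub_cancel_right]
    have h4 : ENNReal.ofReal 8 = 8 := by norm_num
    rw [h4] at h2
    exact (measure_mono h3).trans h2
  have h5 : ∑ j ∈ S, G ι {ω : ι → ℝ | ω - u j ∈ E} ≤ 1 := by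
    rw [← measure_biUnion_finset]
    · exact prob_le_one
    · intro j hj j' hj' hjj
      rw [Function.onFun, Set.disjoint_left]
      intro ω h h'
      exact hjj (hd j hj j' hj' ω h h')
    · exact fun j _ => hVm j
  calc (S.card : ℝ≥0∞) * G ι E = ∑ _j ∈ S, G ι E := by rw [Finset.sum_const, nsmul_eq_mul]
    _ ≤ ∑ j ∈ S, 8 * G ι {ω : ι → ℝ | ω - u j ∈ E} := Finset.sum_le_sum h1
    _ = 8 * ∑ j ∈ S, G ι {ω : ι → ℝ | ω - u j ∈ E} := by rw [Finset.mul_sum]
    _ ≤ 8 * 1 := by gcongr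
    _ = 8 := mul_one 8

lemma exists_K (L V y : ℝ) (hL : 1 ≤ L) (hV : 0 < V) (hy : 0 < y) :
    ∃ K : ℕ, 1 ≤ K ∧ ((K : ℝ) - 1) * (3 * y) * V ≤ 1 / (2 * L) ∧
      1 / (K : ℝ) ≤ min 1 (12 * L * V * y) := by
  have hL0 : 0 < L := by linarith
  set z : ℝ := 1 / (6 * L * V * y) with hz
  have hz0 : 0 < z := by positivity
  refine ⟨max 1 ⌊z⌋₊, le_max_left _ _, ?_, ?_⟩
  · have h1 : ((max 1 ⌊z⌋₊ : ℕ) : ℝ) - 1 ≤ z := by
      rcases le_total 1 ⌊z⌋₊ with h | h
      · rw [max_eq_right h]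
        have := Nat.floor_le hz0.le
        linarith
      · rw [max_eq_left h]
        simp [hz0.le]
    calc (((max 1 ⌊z⌋₊ : ℕ) : ℝ) - 1) * (3 * y) * V ≤ z * (3 * y) * V := by gcongr
      _ = 1 / (2 * L) := by rw [hz]; field_simp; norm_num
  · have h1 : (1 : ℝ) ≤ ((max 1 ⌊z⌋₊ : ℕ) : ℝ) := by exact_mod_cast le_max_left _ _
    refine le_min ?_ ?_
    · rw [div_le_one (by linarith)]
      exact h1
    · have h2 : z / 2 ≤ ((max 1 ⌊z⌋₊ : ℕ) : ℝ) := by
        have h3 := Nat.lt_floor_add_one z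
        have h4 : (⌊z⌋₊ : ℝ) ≤ ((max 1 ⌊z⌋₊ : ℕ) : ℝ) := by exact_mod_cast le_max_right _ _
        linarith
      have h5 : 12 * L * V * y = 1 / (z / 2) := by rw [hz]; field_simp; norm_num
      rw [h5]
      exact one_div_le_one_div_of_le (by positivity) h2

lemma le_of_card {a : ℝ≥0∞} {c t : ℝ} (hc : 0 < c) (h : ENNReal.ofReal c * a ≤ 8)
    (ht : 1 / c ≤ t) : a ≤ ENNReal.ofReal (8 * t) := by
  have h1 : a ≤ 8 / ENNReal.ofReal c := by
    rw [ENNReal.le_div_iff_mul_le (Or.inl (by simpa using hc)) (Or.inl ENNReal.ofReal_ne_top)]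
    rwa [mul_comm]
  refine h1.trans ?_
  have h2 : (8 : ℝ≥0∞) = ENNReal.ofReal 8 := by norm_num
  rw [h2, ← ENNReal.ofReal_div_of_pos hc]
  apply ENNReal.ofReal_le_ofReal
  rw [div_eq_mul_one_div]
  linarith

/-- SD-3a. -/
theorem single (HT : S_Transport) : S_Single := by
  intro ι _ X w W L x₀ hX hL hx hW hw hXw
  obtain ⟨K, hK1, hK2, hK3⟩ := exists_K L W x₀ hL hW hx
  have hK0 : (0 : ℝ) < K := by exact_mod_cast hK1
  set E : Set (ι → ℝ) := {ω | Box L ω ∧ |X ω| ≤ x₀} with hE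
  have hEm : MeasurableSet E :=
    (measurableSet_Box L).inter (measurableSet_le (continuous_abs.measurable.comp hX)
      measurable_const)
  have h1 := translates HT (Finset.range K) L hL E hEm (fun ω h => h.1)
    (fun k => ((k : ℝ) * (3 * x₀)) • w) ?_ ?_
  · rw [Finset.card_range, ← ENNReal.ofReal_natCast] at h1
    exact le_of_card hK0 h1 hK3
  · intro k hk
    have hkK : (k : ℝ) ≤ K - 1 := by
      have : k + 1 ≤ K := Finset.mem_range.1 hk
      have : ((k + 1 : ℕ) : ℝ) ≤ K := by exact_mod_cast this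
      push_cast at this
      linarith
    have h2 : ∑ i, |(((k : ℝ) * (3 * x₀)) • w) i| = (k : ℝ) * (3 * x₀) * ∑ i, |w i| := by
      rw [Finset.mul_sum]
      refine Finset.sum_congr rfl fun i _ => ?_
      rw [Pi.smul_apply, smul_eq_mul, abs_mul, abs_of_nonneg (by positivity)]
    rw [h2]
    have hK' : (0 : ℝ) ≤ K - 1 := le_trans (Nat.cast_nonneg k) hkK
    calc (k : ℝ) * (3 * x₀) * ∑ i, |w i| ≤ (K - 1) * (3 * x₀) * W := by gcongr
      _ ≤ 1 / (2 * L) := hK2
      _ ≤ 1 / L := by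
          apply one_div_le_one_div_of_le (by linarith)
          linarith
  · intro k hk k' hk' ω h h'
    have h2 := hXw (ω - ((k : ℝ) * (3 * x₀)) • w) (((k : ℝ) - k') * (3 * x₀)) h.2 (by
      have h3 : ω - ((k : ℝ) * (3 * x₀)) • w + (((k : ℝ) - k') * (3 * x₀)) • w =
          ω - ((k' : ℝ) * (3 * x₀)) • w := by
        funext i
        simp only [Pi.add_apply, Pi.sub_apply, Pi.smul_apply, smul_eq_mul]
        ring
      rw [h3]
      exact h'.2)
    rw [abs_mul, abs_of_pos (by positivity : (0 : ℝ) < 3 * x₀)] at h2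
    have h3 : |(k : ℝ) - k'| < 1 := by nlinarith
    have h4 : |((k : ℤ) - (k' : ℤ) : ℤ)| < 1 := by
      have : ((|((k : ℤ) - (k' : ℤ) : ℤ)| : ℤ) : ℝ) < 1 := by push_cast; exact h3
      exact_mod_cast this
    rw [Int.abs_lt_one_iff] at h4
    omega

/-- SD-3b. -/
theorem joint (HT : S_Transport) : S_Joint := by
  intro ι _ X Y v w V W L x₀ y₀ hX hY hL hx hy hV hW hv hw hYv hYw hXw
  obtain ⟨K, hK1, hK2, hK3⟩ := exists_K L W x₀ hL hW hx
  obtain ⟨M, hM1, hM2, hM3⟩ := exists_K L V y₀ hL hV hy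
  have hK0 : (0 : ℝ) < K := by exact_mod_cast hK1
  have hM0 : (0 : ℝ) < M := by exact_mod_cast hM1
  set E : Set (ι → ℝ) := {ω | Box L ω ∧ |X ω| ≤ x₀ ∧ |Y ω| ≤ y₀} with hE
  have hEm : MeasurableSet E :=
    (measurableSet_Box L).inter ((measurableSet_le (continuous_abs.measurable.comp hX)
      measurable_const).inter (measurableSet_le (continuous_abs.measurable.comp hY)
      measurable_const))
  have h1 := translates HT (Finset.range M ×ˢ Finset.range K) L hL E hEm (fun ω h => h.1)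
    (fun k => ((k.1 : ℝ) * (3 * y₀)) • v + ((k.2 : ℝ) * (3 * x₀)) • w) ?_ ?_
  · rw [Finset.card_product, Finset.card_range, Finset.card_range, ← ENNReal.ofReal_natCast] at h1
    have h2 := le_of_card (c := ((M * K : ℕ) : ℝ)) (by push_cast; positivity) h1
      (t := min 1 (12 * L * W * x₀) * min 1 (12 * L * V * y₀)) (by
        push_cast
        have : 1 / ((M : ℝ) * K) = 1 / (K : ℝ) * (1 / (M : ℝ)) := by field_simp
        rw [this]
        have h0 : (0 : ℝ) ≤ 1 / (M : ℝ) := by positivity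
        have h0' : (0 : ℝ) ≤ 1 / (K : ℝ) := by positivity
        exact mul_le_mul hK3 hM3 h0 (h0'.trans hK3))
    rw [mul_assoc]
    exact h2
  · rintro ⟨a, k⟩ hk
    rw [Finset.mem_product] at hk
    have hkK : (k : ℝ) ≤ K - 1 := by
      have : k + 1 ≤ K := Finset.mem_range.1 hk.2
      have : ((k + 1 : ℕ) : ℝ) ≤ K := by exact_mod_cast this
      push_cast at this
      linarith
    have haM : (a : ℝ) ≤ M - 1 := by
      have : a + 1 ≤ M := Finset.mem_range.1 hk.1
      have : ((a + 1 : ℕ) : ℝ) ≤ M := by exact_mod_cast this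
      push_cast at this
      linarith
    have h2 : ∑ i, |(((a : ℝ) * (3 * y₀)) • v + ((k : ℝ) * (3 * x₀)) • w) i| ≤
        (a : ℝ) * (3 * y₀) * ∑ i, |v i| + (k : ℝ) * (3 * x₀) * ∑ i, |w i| := by
      rw [Finset.mul_sum, Finset.mul_sum, ← Finset.sum_add_distrib]
      refine Finset.sum_le_sum fun i _ => ?_
      rw [Pi.add_apply, Pi.smul_apply, Pi.smul_apply, smul_eq_mul, smul_eq_mul]
      refine (abs_add_le _ _).trans ?_
      rw [abs_mul ((a : ℝ) * (3 * y₀)), abs_mul ((k : ℝ) * (3 * x₀)),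
        abs_of_nonneg (by positivity : (0 : ℝ) ≤ (a : ℝ) * (3 * y₀)),
        abs_of_nonneg (by positivity : (0 : ℝ) ≤ (k : ℝ) * (3 * x₀))]
    refine h2.trans ?_
    have hL0 : 0 < L := by linarith
    have hM' : (0 : ℝ) ≤ M - 1 := le_trans (Nat.cast_nonneg a) haM
    have hK' : (0 : ℝ) ≤ K - 1 := le_trans (Nat.cast_nonneg k) hkK
    calc (a : ℝ) * (3 * y₀) * ∑ i, |v i| + (k : ℝ) * (3 * x₀) * ∑ i, |w i|
        ≤ (M - 1) * (3 * y₀) * V + (K - 1) * (3 * x₀) * W := by gcongr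
      _ ≤ 1 / (2 * L) + 1 / (2 * L) := add_le_add hM2 hK2
      _ = 1 / L := by field_simp; norm_num
  · rintro ⟨a, k⟩ hk ⟨a', k'⟩ hk' ω h h'
    simp only at h h'
    have hshift : ∀ (η : ι → ℝ) (t r : ℝ), Y (η + (t • v + r • w)) = Y η + t := by
      intro η t r
      rw [← add_assoc, hYw, hYv]
    set e := ω - (((a : ℝ) * (3 * y₀)) • v + ((k : ℝ) * (3 * x₀)) • w) with he
    set e' := ω - (((a' : ℝ) * (3 * y₀)) • v + ((k' : ℝ) * (3 * x₀)) • w) with he'
    have hY1 : Y e + (a : ℝ) * (3 * y₀) = Y e' + (a' : ℝ) * (3 * y₀) := by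
      rw [← hshift e _ ((k : ℝ) * (3 * x₀)), ← hshift e' _ ((k' : ℝ) * (3 * x₀)), he, he']
      simp only [sub_add_cancel]
    have haa : a = a' := by
      have h2 : |((a : ℝ) - a') * (3 * y₀)| ≤ 2 * y₀ := by
        have : ((a : ℝ) - a') * (3 * y₀) = Y e' - Y e := by linarith
        rw [this]
        calc |Y e' - Y e| ≤ |Y e'| + |Y e| := abs_sub _ _
          _ ≤ 2 * y₀ := by linarith [h.2.2, h'.2.2]
      rw [abs_mul, abs_of_pos (by positivity : (0 : ℝ) < 3 * y₀)] at h2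
      have h3 : |(a : ℝ) - a'| < 1 := by nlinarith
      have h4 : |((a : ℤ) - (a' : ℤ) : ℤ)| < 1 := by
        have : ((|((a : ℤ) - (a' : ℤ) : ℤ)| : ℤ) : ℝ) < 1 := by push_cast; exact h3
        exact_mod_cast this
      rw [Int.abs_lt_one_iff] at h4
      omega
    subst haa
    have h2 := hXw e (((k : ℝ) - k') * (3 * x₀)) h.2.1 (by
      have h3 : e + (((k : ℝ) - k') * (3 * x₀)) • w = e' := by
        rw [he, he']
        funext i
        simp only [Pi.add_apply, Pi.sub_apply, Pi.smul_apply, smul_eq_mul]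
        ring
      rw [h3]
      exact h'.2.1)
    rw [abs_mul, abs_of_pos (by positivity : (0 : ℝ) < 3 * x₀)] at h2
    have h3 : |(k : ℝ) - k'| < 1 := by nlinarith
    have h4 : |((k : ℤ) - (k' : ℤ) : ℤ)| < 1 := by
      have : ((|((k : ℤ) - (k' : ℤ) : ℤ)| : ℤ) : ℝ) < 1 := by push_cast; exact h3
      exact_mod_cast this
    rw [Int.abs_lt_one_iff] at h4
    have : k = k' := by omega
    rw [this]

end Pool.Agent.W134.SD
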