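import Pool.Agent.W993.SD.Basic

/-! SD-1a: transport with bounded density ratio. -/

set_option autoImplicit false
open MeasureTheory ProbabilityTheory
open scoped ENNReal

namespace Pool.Agent.W134.SD
open W993.SD

lemma lint_prod {ι : Type} [Fintype ι] (μ : ι → Measure ℝ) [∀ i, IsProbabilityMeasure (μ i)]
    (f : ι → ℝ → ℝ≥0∞) (hf : ∀ i, Measurable (f i)) :
    ∫⁻ u, ∏ i, f i (u i) ∂(Measure.pi μ) = ∏ i, ∫⁻ t, f i t ∂(μ i) := by
  have hind : iIndepFun (fun i (u : ι → ℝ) => f i (u i)) (Measure.pi μ) :=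
    iIndepFun_pi (fun i => (hf i).aemeasurable)
  rw [lintegral_prod_eq_prod_lintegral_of_indepFun Finset.univ _ hind
    (fun i => (hf i).comp (measurable_pi_apply i))]
  refine Finset.prod_congr rfl fun i _ => ?_
  exact (measurePreserving_eval μ i).lintegral_comp (hf i)

/-- inverse of the density of the Gaussian measure -/
noncomputable def ri (x : ℝ) : ℝ≥0∞ := ENNReal.ofReal (gaussianPDFReal 0 1 x)⁻¹

lemma ri_meas : Measurable ri := by
  unfold ri
  exact (measurable_gaussianPDFReal 0 1).inv.ennreal_ofReal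

lemma vol_eq1 : (gaussianReal 0 1).withDensity ri = (volume : Measure ℝ) := by
  rw [gaussianReal_of_var_ne_zero 0 one_ne_zero]
  rw [← withDensity_mul _ (measurable_gaussianPDF 0 1) ri_meas]
  have : gaussianPDF 0 1 * ri = 1 := by
    funext x
    have hp := gaussianPDFReal_pos 0 1 x one_ne_zero
    simp only [Pi.mul_apply, Pi.one_apply, gaussianPDF, ri]
    rw [← ENNReal.ofReal_mul hp.le, mul_inv_cancel₀ hp.ne', ENNReal.ofReal_one]
  rw [this, withDensity_one]

lemma vol_eq (ι : Type) [Fintype ι] :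
    (volume : Measure (ι → ℝ)) = (G ι).withDensity (fun ω => ∏ i, ri (ω i)) := by
  rw [volume_pi]
  refine Measure.pi_eq fun S hS => ?_
  rw [withDensity_apply _ (MeasurableSet.univ_pi hS), ← lintegral_indicator
    (MeasurableSet.univ_pi hS)]
  have e : (Set.univ.pi S).indicator (fun u : ι → ℝ => ∏ i, ri (u i)) =
      fun u => ∏ i, (S i).indicator ri (u i) := by
    funext u
    by_cases hu : u ∈ Set.univ.pi S
    · rw [Set.indicator_of_mem hu]
      refine Finset.prod_congr rfl fun i _ => ?_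
      rw [Set.indicator_of_mem (hu i (Set.mem_univ i))]
    · rw [Set.indicator_of_notMem hu]
      rw [Set.mem_univ_pi] at hu
      push Not at hu
      obtain ⟨i, hi⟩ := hu
      symm
      refine Finset.prod_eq_zero (Finset.mem_univ i) ?_
      rw [Set.indicator_of_notMem hi]
  rw [e, G, lint_prod _ _ (fun i => ri_meas.indicator (hS i))]
  refine Finset.prod_congr rfl fun i _ => ?_
  rw [lintegral_indicator (hS i), ← withDensity_apply _ (hS i), vol_eq1]

/-- density of the Gaussian measure -/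
noncomputable def rho {ι : Type} [Fintype ι] (ω : ι → ℝ) : ℝ :=
  ∏ i, gaussianPDFReal 0 1 (ω i)

lemma rho_pos {ι : Type} [Fintype ι] (ω : ι → ℝ) : 0 < rho ω :=
  Finset.prod_pos fun i _ => gaussianPDFReal_pos 0 1 _ one_ne_zero

lemma rho_meas {ι : Type} [Fintype ι] : Measurable (rho : (ι → ℝ) → ℝ) := by
  unfold rho
  exact Finset.measurable_prod _ fun i _ =>
    (measurable_gaussianPDFReal 0 1).comp (measurable_pi_apply i)

lemma G_eq (ι : Type) [Fintype ι] :
    G ι = (volume : Measure (ι → ℝ)).withDensity (fun ω => ENNReal.ofReal (rho ω)) := by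
  have hm : Measurable (fun ω : ι → ℝ => ∏ i, ri (ω i)) :=
    Finset.measurable_prod _ fun i _ => ri_meas.comp (measurable_pi_apply i)
  rw [vol_eq ι, ← withDensity_mul _ hm rho_meas.ennreal_ofReal]
  have : (fun ω : ι → ℝ => ∏ i, ri (ω i)) * (fun ω => ENNReal.ofReal (rho ω)) = 1 := by
    funext ω
    simp only [Pi.mul_apply, Pi.one_apply, ri, rho]
    rw [← ENNReal.ofReal_prod_of_nonneg (fun i _ =>
      (inv_pos.2 (gaussianPDFReal_pos 0 1 _ one_ne_zero)).le), ← ENNReal.ofReal_mul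
      (Finset.prod_nonneg fun i _ => (inv_pos.2 (gaussianPDFReal_pos 0 1 _ one_ne_zero)).le),
      ← Finset.prod_mul_distrib]
    rw [Finset.prod_eq_one, ENNReal.ofReal_one]
    intro i _
    exact inv_mul_cancel₀ (gaussianPDFReal_pos 0 1 _ one_ne_zero).ne'
  rw [this, withDensity_one]

lemma rho_eq {ι : Type} [Fintype ι] (ω : ι → ℝ) :
    rho ω = (Real.sqrt (2 * Real.pi))⁻¹ ^ Fintype.card ι * Real.exp (-(∑ i, ω i ^ 2) / 2) := by
  unfold rho
  simp only [gaussianPDFReal, NNReal.coe_one, mul_one, sub_zero]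
  rw [Finset.prod_mul_distrib, Finset.prod_const, Finset.card_univ, ← Real.exp_sum]
  congr 2
  rw [← Finset.sum_div, Finset.sum_neg_distrib]

lemma rho_ratio {ι : Type} [Fintype ι] (L : ℝ) (hL : 1 ≤ L) (ω η : ι → ℝ) (h1 : Box L ω)
    (h2 : ∑ i, |η i - ω i| ≤ 1 / L) : rho ω ≤ 8 * rho η := by
  rw [rho_eq, rho_eq]
  have hc : 0 < (Real.sqrt (2 * Real.pi))⁻¹ ^ Fintype.card ι := by positivity
  have hL0 : 0 < L := by linarith
  have h3 : ∑ i, (η i ^ 2 - ω i ^ 2) ≤ 3 := by
    have h4 : ∀ i, η i ^ 2 - ω i ^ 2 ≤ 2 * L * |η i - ω i| + |η i - ω i| := by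
      intro i
      have h5 : |η i - ω i| ≤ 1 := by
        have h6 : |η i - ω i| ≤ ∑ i, |η i - ω i| :=
          Finset.single_le_sum (f := fun i => |η i - ω i|) (fun _ _ => abs_nonneg _)
            (Finset.mem_univ i)
        have h7 : 1 / L ≤ 1 := by rw [div_le_one hL0]; exact hL
        linarith
      have h6 : η i ^ 2 - ω i ^ 2 = 2 * ω i * (η i - ω i) + (η i - ω i) ^ 2 := by ring
      have h7 : 2 * ω i * (η i - ω i) ≤ 2 * L * |η i - ω i| := by
        have h8 : ω i * (η i - ω i) ≤ |ω i| * |η i - ω i| := by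
          rw [← abs_mul]; exact le_abs_self _
        have h9 : |ω i| * |η i - ω i| ≤ L * |η i - ω i| :=
          mul_le_mul_of_nonneg_right (h1 i) (abs_nonneg _)
        linarith
      have h8 : (η i - ω i) ^ 2 ≤ |η i - ω i| := by
        rw [← sq_abs]
        nlinarith [abs_nonneg (η i - ω i)]
      linarith
    have h5 := Finset.sum_le_sum fun i (_ : i ∈ Finset.univ) => h4 i
    rw [Finset.sum_add_distrib, ← Finset.mul_sum] at h5
    have h6 : 2 * L * ∑ i, |η i - ω i| ≤ 2 := by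
      calc 2 * L * ∑ i, |η i - ω i| ≤ 2 * L * (1 / L) := by gcongr
        _ = 2 := by field_simp
    have h7 : 1 / L ≤ 1 := by rw [div_le_one hL0]; exact hL
    linarith
  have h4 : Real.exp (-(∑ i, ω i ^ 2) / 2) ≤ 8 * Real.exp (-(∑ i, η i ^ 2) / 2) := by
    have h5 : -(∑ i, ω i ^ 2) / 2 ≤ 3 / 2 + -(∑ i, η i ^ 2) / 2 := by
      rw [Finset.sum_sub_distrib] at h3
      linarith
    have h6 : Real.exp (3 / 2) ≤ 8 := by
      have h7 : Real.exp (3 / 2) ≤ Real.exp 1 * Real.exp 1 := by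
        rw [← Real.exp_add]
        exact Real.exp_le_exp.2 (by norm_num)
      have h8 := Real.exp_one_lt_d9
      have h9 := Real.exp_pos 1
      nlinarith
    calc Real.exp (-(∑ i, ω i ^ 2) / 2) ≤ Real.exp (3 / 2 + -(∑ i, η i ^ 2) / 2) :=
          Real.exp_le_exp.2 h5
      _ = Real.exp (3 / 2) * Real.exp (-(∑ i, η i ^ 2) / 2) := Real.exp_add _ _
      _ ≤ 8 * Real.exp (-(∑ i, η i ^ 2) / 2) :=
          mul_le_mul_of_nonneg_right h6 (Real.exp_pos _).le
  nlinarith

/-- SD-1a. -/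
theorem transport : S_Transport := by
  intro ι _ T κ L V hT hκ hL hV hF
  set S : Set (ι → ℝ) := {ω | Box L ω ∧ ∑ i, |T ω i - ω i| ≤ 1 / L ∧ T ω ∈ V} with hS
  have hSm : MeasurableSet S := by
    have h1 : Measurable fun ω : ι → ℝ => ∑ i, |T ω i - ω i| := by
      refine Finset.measurable_sum _ fun i _ => ?_
      have h2 : Measurable fun ω : ι → ℝ => T ω i - ω i :=
        ((measurable_pi_apply i).comp hT).sub (measurable_pi_apply i)
      exact continuous_abs.measurable.comp h2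
    have h2 : MeasurableSet {ω : ι → ℝ | ∑ i, |T ω i - ω i| ≤ 1 / L} :=
      measurableSet_le h1 measurable_const
    exact (measurableSet_Box L).inter (h2.inter (hT hV))
  have hρ : Measurable fun ω : ι → ℝ => ENNReal.ofReal (rho ω) := rho_meas.ennreal_ofReal
  have h1 : G ι S ≤ ∫⁻ ω, 8 * V.indicator (fun ω => ENNReal.ofReal (rho ω)) (T ω) := by
    rw [G_eq, withDensity_apply _ hSm, ← lintegral_indicator hSm]
    refine lintegral_mono fun ω => ?_
    by_cases hω : ω ∈ S
    · rw [Set.indicator_of_mem hω, Set.indicator_of_mem hω.2.2]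
      have h2 := rho_ratio L hL ω (T ω) hω.1 hω.2.1
      calc ENNReal.ofReal (rho ω) ≤ ENNReal.ofReal (8 * rho (T ω)) := ENNReal.ofReal_le_ofReal h2
        _ = 8 * ENNReal.ofReal (rho (T ω)) := by
            rw [ENNReal.ofReal_mul (by norm_num)]
            norm_num
    · rw [Set.indicator_of_notMem hω]
      exact zero_le
  refine h1.trans ?_
  have hm : Measurable (V.indicator (fun ω : ι → ℝ => ENNReal.ofReal (rho ω))) :=
    hρ.indicator hV
  have h2 := hF _ hm
  have h4 : ∫⁻ ω, 8 * V.indicator (fun ω : ι → ℝ => ENNReal.ofReal (rho ω)) (T ω) =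
      8 * ∫⁻ ω, V.indicator (fun ω : ι → ℝ => ENNReal.ofReal (rho ω)) (T ω) :=
    lintegral_const_mul 8 (hm.comp hT)
  rw [h4]
  have h3 : ∫⁻ ω, V.indicator (fun ω : ι → ℝ => ENNReal.ofReal (rho ω)) ω = G ι V := by
    rw [lintegral_indicator hV, G_eq, withDensity_apply _ hV]
  rw [h3] at h2
  calc 8 * ∫⁻ ω, V.indicator (fun ω : ι → ℝ => ENNReal.ofReal (rho ω)) (T ω)
      ≤ 8 * (ENNReal.ofReal κ⁻¹ * G ι V) := by gcongr
    _ = ENNReal.ofReal (8 / κ) * G ι V := by
        rw [div_eq_mul_inv, ENNReal.ofReal_mul (by norm_num), ← mul_assoc]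
        norm_num

end Pool.Agent.W134.SD
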