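import Pool.Agent.W993.SD.Basic

/-! SD-1b, SD-1c: two volume lemmas. -/

set_option autoImplicit false
open MeasureTheory ProbabilityTheory
open scoped ENNReal

namespace Pool.Agent.W134.SD
open W993.SD

lemma lint_affine (a κ : ℝ) (hκ : 1 ≤ κ) (H : ℝ → ℝ≥0∞) (hH : Measurable H) :
    ∫⁻ z, H (a + κ * (z - a)) = ENNReal.ofReal κ⁻¹ * ∫⁻ z, H z := by
  have hκ0 : κ ≠ 0 := by linarith [hκ]
  have h1 : ∫⁻ z, H (a + κ * (z - a)) = ∫⁻ z, H (a + κ * z) :=
    lintegral_sub_right_eq_self (fun z => H (a + κ * z)) a
  have h2 : ∫⁻ z, H (a + κ * z) = ∫⁻ z, H (a + z) ∂(Measure.map (κ * ·) volume) := by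
    have h3 : Measurable fun z => H (a + z) := hH.comp (measurable_const_add a)
    rw [lintegral_map h3 (measurable_const_mul κ)]
  rw [h1, h2, Real.map_volume_mul_left hκ0, lintegral_smul_measure, smul_eq_mul,
    abs_of_pos (by positivity)]
  congr 1
  exact lintegral_add_left_eq_self H a

/-- SD-1c. -/
theorem scaleVol : S_ScaleVol := by
  intro ι _ _ i₀ p κ hp hκ hpu F hF
  have hm : Measurable fun ω : ι → ℝ => Function.update ω i₀ (p ω + κ * (ω i₀ - p ω)) := by
    rw [measurable_pi_iff]
    intro i
    by_cases hi : i = i₀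
    · subst hi
      simp only [Function.update_self]
      fun_prop
    · simp only [Function.update_of_ne hi]
      fun_prop
  have h1 : Measurable fun ω : ι → ℝ => F (Function.update ω i₀ (p ω + κ * (ω i₀ - p ω))) :=
    hF.comp hm
  have h2 : Measurable fun ω : ι → ℝ => ENNReal.ofReal κ⁻¹ * F ω := hF.const_mul _
  rw [← lintegral_const_mul _ hF]
  refine lintegral_eq_of_lmarginal_eq {i₀} h1 h2 ?_
  rw [lmarginal_singleton, lmarginal_singleton]
  funext x
  have h3 : ∀ z, F (Function.update (Function.update x i₀ z) i₀
      (p (Function.update x i₀ z) + κ * ((Function.update x i₀ z) i₀ -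
        p (Function.update x i₀ z)))) = F (Function.update x i₀ (p x + κ * (z - p x))) := by
    intro z
    rw [hpu, Function.update_idem, Function.update_self]
  simp_rw [h3]
  have h4 : Measurable fun z => F (Function.update x i₀ z) := hF.comp (measurable_update x)
  rw [lintegral_const_mul _ h4]
  exact lint_affine (p x) κ hκ (fun z => F (Function.update x i₀ z))
    (hF.comp (measurable_update x))

/-- SD-1b. -/
theorem shearVol : S_ShearVol := by
  classical
  intro ι _ s v hv hv0 hvs F hF
  have h1 : Measurable fun ω : ι → ℝ => F (ω + v ω) := hF.comp (measurable_id.add hv)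
  refine lintegral_eq_of_lmarginal_eq s.toFinset h1 hF ?_
  funext x
  simp only [lmarginal]
  have h2 : ∀ y : (i : s.toFinset) → ℝ,
      Function.updateFinset x s.toFinset y + v (Function.updateFinset x s.toFinset y) =
        Function.updateFinset x s.toFinset (y + fun i : s.toFinset => v x i) := by
    intro y
    have h3 : v (Function.updateFinset x s.toFinset y) = v x := by
      apply hvs
      intro i hi
      rw [Function.updateFinset, dif_neg]
      rwa [Set.mem_toFinset]
    rw [h3]
    funext i
    simp only [Pi.add_apply, Function.updateFinset]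
    by_cases hi : i ∈ s.toFinset
    · rw [dif_pos hi, dif_pos hi]
    · rw [dif_neg hi, dif_neg hi, hv0 x i (by rwa [Set.mem_toFinset] at hi), add_zero]
  simp_rw [h2]
  exact lintegral_add_right_eq_self (μ := (volume : Measure ((i : s.toFinset) → ℝ)))
    (fun y => F (Function.updateFinset x s.toFinset y)) (fun i : s.toFinset => v x i)

end Pool.Agent.W134.SD
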